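import Mathlib

/-!
# Automatic presentations of `⟨ℕ_{>0}; +, x·2^y, ≤, 1⟩` : definitions
-/

namespace Pool.Agent.Helper162_aut

/-- The convolution of `k` words over `A` : all words are padded on the right with the padding
symbol `none` up to the maximal length, and the result is read as a single word over the alphabet
`Fin k → Option A`.  (`l[j]?` is `some` of the `j`-th letter of `l`, or `none` when `j` is at
least the length of `l`.) -/
def conv {A : Type} {k : ℕ} (w : Fin k → List A) : List (Fin k → Option A) :=
  (List.range (Finset.univ.sup fun i => (w i).length)).map fun j i => (w i)[j]?

/-- A relation on words is automatic if the set of the convolutions of its tuples is a regular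
language. -/
def AutomaticRel {A : Type} {k : ℕ} (R : Set (Fin k → List A)) : Prop :=
  Language.IsRegular (conv '' R : Set (List (Fin k → Option A)))

/-- An automatic presentation of a structure with domain `X`, two binary functions `f`, `g`, a
binary relation `r` and a constant `c`: a finite alphabet `A` and an isomorphism from the
structure onto a structure whose domain `D` is a regular language over `A` and in which the graphs
of the two functions and the relation are automatic. (The isomorphism is the injective map `enc`,
whose range is `D`; the constant is interpreted by the word `enc c`, on which there is no
condition.) -/
structure AutomaticPresentation (X : Type) (f g : X → X → X) (r : X → X → Prop) (c : X) where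
  /-- the alphabet -/
  A : Type
  /-- the alphabet is finite -/
  fin : Fintype A
  /-- the isomorphism -/
  enc : X → List A
  inj : Function.Injective enc
  /-- the word that interprets the constant -/
  const : List A
  const_eq : const = enc c
  /-- the domain is a regular language -/
  dom : Language.IsRegular (Set.range enc : Set (List A))
  /-- the graph of `f` is automatic -/
  graph_f : AutomaticRel {w : Fin 3 → List A | ∃ x y, w = ![enc x, enc y, enc (f x y)]}
  /-- the graph of `g` is automatic -/
  graph_g : AutomaticRel {w : Fin 3 → List A | ∃ x y, w = ![enc x, enc y, enc (g x y)]}
  /-- the relation is automatic -/
  rel : AutomaticRel {w : Fin 2 → List A | ∃ x y, r x y ∧ w = ![enc x, enc y]}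

end Pool.Agent.Helper162_aut
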