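import Pool.Agent.Helper162_aut.Defs

namespace Pool.Agent.Helper162_aut

open List

variable {A : Type} {k : ℕ}

lemma length_conv (w : Fin k → List A) :
    (conv w).length = Finset.univ.sup fun i => (w i).length := by
  simp [conv]

lemma length_le_conv (w : Fin k → List A) (i : Fin k) : (w i).length ≤ (conv w).length := by
  rw [length_conv]
  exact Finset.le_sup (f := fun i => (w i).length) (Finset.mem_univ i)

lemma getElem?_conv (w : Fin k → List A) (j : ℕ) (hj : j < (conv w).length) :
    (conv w)[j]? = some (fun i => (w i)[j]?) := by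
  have h : j < Finset.univ.sup fun i => (w i).length := by rwa [length_conv] at hj
  simp only [conv, List.getElem?_map]
  rw [List.getElem?_range h]
  rfl

lemma cut_left {B : Type*} (t a b c : List B) (j : ℕ) (h : j < t.length + a.length) :
    (t ++ (a ++ c))[j]? = (t ++ (a ++ b ++ c))[j]? := by
  have h' : j < (t ++ a).length := by simpa using h
  have e1 : t ++ (a ++ c) = (t ++ a) ++ c := by simp
  have e2 : t ++ (a ++ b ++ c) = (t ++ a) ++ (b ++ c) := by simp
  rw [e1, e2, List.getElem?_append_left (l₁ := t ++ a) h',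
    List.getElem?_append_left (l₁ := t ++ a) h']

lemma cut_right {B : Type*} (t a b c : List B) (j : ℕ) (h : t.length + a.length ≤ j) :
    (t ++ (a ++ c))[j]? = (t ++ (a ++ b ++ c))[j + b.length]? := by
  have e1 : t ++ (a ++ c) = (t ++ a) ++ c := by simp
  have e2 : t ++ (a ++ b ++ c) = (t ++ a ++ b) ++ c := by simp
  rw [e1, e2, List.getElem?_append_right (l₁ := t ++ a) (by simpa using h),
    List.getElem?_append_right (l₁ := t ++ a ++ b) (by simp; omega)]
  congr 1
  simp
  omega

/-- The value of an automatic function is at most a constant longer than its arguments. -/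
lemma length_bound [Fintype A] {X : Type} (enc : X → List A) (inj : Function.Injective enc)
    (f : X → X → X)
    (h : AutomaticRel {w : Fin 3 → List A | ∃ x y, w = ![enc x, enc y, enc (f x y)]}) :
    ∃ C : ℕ, ∀ x y, (enc (f x y)).length ≤ max (enc x).length (enc y).length + C := by
  obtain ⟨σ, hσ, M, hM⟩ := h
  refine ⟨Fintype.card σ, fun x y => ?_⟩
  by_contra hcon
  push Not at hcon
  set m := max (enc x).length (enc y).length with hm
  set W : Fin 3 → List A := ![enc x, enc y, enc (f x y)] with hW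
  set w := conv W with hw
  have hlen : w.length = (enc (f x y)).length := by
    apply le_antisymm
    · rw [hw, length_conv]
      apply Finset.sup_le
      intro i _
      fin_cases i
      · simp [hW]; omega
      · simp [hW]; omega
      · simp [hW]
    · exact length_le_conv W 2
  have hacc : w ∈ M.accepts := by
    rw [hM]
    exact ⟨W, ⟨x, y, rfl⟩, rfl⟩
  have hcard : Fintype.card σ ≤ (w.drop m).length := by
    rw [List.length_drop, hlen]; omega
  obtain ⟨q, a, b, c, hx, hab, hb, h1, h2, h3⟩ :=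
    M.evalFrom_split (s := M.eval (w.take m)) (t := M.evalFrom (M.eval (w.take m)) (w.drop m))
      hcard rfl
  set w' := w.take m ++ (a ++ c) with hw'
  have hacc' : w' ∈ M.accepts := by
    rw [DFA.mem_accepts] at hacc ⊢
    have e1 : M.eval w = M.evalFrom (M.eval (w.take m)) (w.drop m) := by
      change M.evalFrom M.start w = M.evalFrom (M.evalFrom M.start (w.take m)) (w.drop m)
      rw [← DFA.evalFrom_of_append, List.take_append_drop]
    have e2 : M.eval w' = M.evalFrom (M.eval (w.take m)) (w.drop m) := by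
      change M.evalFrom M.start w' = _
      rw [hw', DFA.evalFrom_of_append, DFA.evalFrom_of_append]
      change M.evalFrom (M.evalFrom (M.eval (w.take m)) a) c = _
      rw [h1, h3]
    rw [e2, ← e1]
    exact hacc
  rw [hM] at hacc'
  obtain ⟨W', ⟨x', y', hW'⟩, hconv⟩ := hacc'
  have hml : m ≤ w.length := by omega
  have hblen : 0 < b.length := List.length_pos_iff.mpr hb
  have hdl : (w.drop m).length = a.length + b.length + c.length := by
    rw [hx]; simp [Nat.add_assoc]
  have hw'len : w'.length = m + a.length + c.length := by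
    rw [hw', List.length_append, List.length_append, List.length_take, min_eq_left hml]; omega
  have hwl : w.length = m + a.length + b.length + c.length := by
    rw [List.length_drop] at hdl; omega
  -- every letter of `w'` at a position at least `m` is a letter of `w` at such a position
  have hbig : ∀ j, m ≤ j → j < w'.length → ∃ j', m ≤ j' ∧ j' < w.length ∧ w'[j]? = w[j']? := by
    intro j hj hjl
    have e : w = w.take m ++ (a ++ b ++ c) := by rw [← hx, List.take_append_drop]
    have htl : (w.take m).length = m := by simp [hml]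
    rcases lt_or_ge j (m + a.length) with hja | hja
    · refine ⟨j, hj, by omega, ?_⟩
      rw [hw', cut_left (w.take m) a b c j (by omega), ← e]
    · refine ⟨j + b.length, by omega, by omega, ?_⟩
      rw [hw', cut_right (w.take m) a b c j (by omega), ← e]
  have hsmall : ∀ j, j < m → w'[j]? = w[j]? := by
    intro j hj
    rw [hw', List.getElem?_append_left (by simp [hml]; omega), List.getElem?_take_of_lt hj]
  have key : ∀ i : Fin 3, (W i).length ≤ m → W' i = W i := by
    intro i hi
    apply List.ext_getElem?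
    intro j
    rcases lt_or_ge j w'.length with hj | hj
    · have hl : (conv W').length = w'.length := by rw [hconv]
      have e1 : w'[j]? = some (fun i => (W' i)[j]?) := by
        rw [← hconv]; exact getElem?_conv W' j (by omega)
      rcases lt_or_ge j m with hjm | hjm
      · have e2 : w[j]? = some (fun i => (W i)[j]?) := getElem?_conv W j (by rw [← hw]; omega)
        rw [hsmall j hjm, e2] at e1
        have := congrFun (Option.some.inj e1) i
        exact this.symm
      · obtain ⟨j', hj1, hj2, hj3⟩ := hbig j hjm hj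
        have e2 : w[j']? = some (fun i => (W i)[j']?) := getElem?_conv W j' hj2
        rw [hj3, e2] at e1
        have := congrFun (Option.some.inj e1) i
        rw [← this, List.getElem?_eq_none (by omega), List.getElem?_eq_none (by omega)]
    · have h1 : (W' i).length ≤ w'.length := by rw [← hconv]; exact length_le_conv W' i
      rw [List.getElem?_eq_none (by omega), List.getElem?_eq_none (by omega)]
  have hx' : x' = x := by
    apply inj
    have := key 0 (by simp [hW, hm])
    simpa [hW, hW'] using this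
  have hy' : y' = y := by
    apply inj
    have := key 1 (by simp [hW, hm])
    simpa [hW, hW'] using this
  subst hx' hy'
  have : w' = w := by rw [← hconv, hW']
  have : w'.length = w.length := by rw [this]
  omega

/-- There are at most `(|A| + 1) ^ ℓ` elements with an encoding of length at most `ℓ`. -/
lemma ball_finite [Fintype A] {X : Type} (enc : X → List A) (inj : Function.Injective enc)
    (ℓ : ℕ) : {x | (enc x).length ≤ ℓ}.Finite ∧
      {x | (enc x).length ≤ ℓ}.ncard ≤ (Fintype.card A + 1) ^ ℓ := by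
  classical
  let F : X → (Fin ℓ → Option A) := fun x j => (enc x)[(j : ℕ)]?
  have hF : Set.InjOn F {x | (enc x).length ≤ ℓ} := by
    intro x hx y hy hxy
    apply inj
    apply List.ext_getElem?
    intro j
    rcases lt_or_ge j ℓ with hj | hj
    · exact congrFun hxy ⟨j, hj⟩
    · simp only [Set.mem_setOf_eq] at hx hy
      rw [List.getElem?_eq_none (by omega), List.getElem?_eq_none (by omega)]
  have hfin : {x | (enc x).length ≤ ℓ}.Finite :=
    Set.Finite.of_finite_image (Set.toFinite (F '' {x | (enc x).length ≤ ℓ})) hF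
  refine ⟨hfin, ?_⟩
  rw [← hF.ncard_image]
  calc (F '' {x | (enc x).length ≤ ℓ}).ncard ≤ (Set.univ : Set (Fin ℓ → Option A)).ncard :=
        Set.ncard_le_ncard (Set.subset_univ _) (Set.toFinite _)
    _ = Fintype.card (Fin ℓ → Option A) := by rw [Set.ncard_univ, Nat.card_eq_fintype_card]
    _ = (Fintype.card A + 1) ^ ℓ := by simp

/-- If `+` and `x·2^y` both increase the length of the encodings by at most `C`, there is a
contradiction. -/
lemma no_growth [Fintype A] (enc : ℕ+ → List A) (inj : Function.Injective enc) (C : ℕ)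
    (hadd : ∀ x y : ℕ+, (enc (x + y)).length ≤ max (enc x).length (enc y).length + C)
    (hpow : ∀ x y : ℕ+, (enc (x * 2 ^ (y : ℕ))).length ≤ max (enc x).length (enc y).length + C) :
    False := by
  classical
  set O : ℕ → Set ℕ+ := fun ℓ => {x | (enc x).length ≤ ℓ ∧ Odd (x : ℕ)} with hO
  have hOfin : ∀ ℓ, (O ℓ).Finite := fun ℓ =>
    (ball_finite enc inj ℓ).1.subset (fun x hx => hx.1)
  have hOcard : ∀ ℓ, (O ℓ).ncard ≤ (Fintype.card A + 1) ^ ℓ := fun ℓ =>
    (Set.ncard_le_ncard (fun x hx => hx.1) (ball_finite enc inj ℓ).1).trans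
      (ball_finite enc inj ℓ).2
  set ℓ₀ := max (enc 1).length (enc 3).length with hℓ₀
  have step : ∀ ℓ, ℓ₀ ≤ ℓ → (O ℓ).ncard ^ 2 ≤ (O (ℓ + 2 * C)).ncard := by
    intro ℓ hℓ
    let g : ℕ+ × ℕ+ → ℕ+ := fun p => p.1 * 2 ^ (p.2 : ℕ) + 1
    have hg : Set.InjOn g (O ℓ ×ˢ O ℓ) := by
      rintro ⟨x, y⟩ ⟨hx, hy⟩ ⟨x', y'⟩ ⟨hx', hy'⟩ h
      have h0 : x * 2 ^ (y : ℕ) = x' * 2 ^ (y' : ℕ) := by
        simpa [g] using h
      have h1 : (x : ℕ) * 2 ^ (y : ℕ) = (x' : ℕ) * 2 ^ (y' : ℕ) := by
        have := congrArg (fun z : ℕ+ => (z : ℕ)) h0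
        simpa using this
      have ox : Odd (x : ℕ) := hx.2
      have ox' : Odd (x' : ℕ) := hx'.2
      have hyy : (y : ℕ) = (y' : ℕ) := by
        have e1 : padicValNat 2 ((x : ℕ) * 2 ^ (y : ℕ)) = y := by
          rw [padicValNat.mul x.ne_zero (by positivity), padicValNat.prime_pow,
            padicValNat.eq_zero_of_not_dvd (by
              intro hd; exact (Nat.not_even_iff_odd.mpr ox) (even_iff_two_dvd.mpr hd)), zero_add]
        have e2 : padicValNat 2 ((x' : ℕ) * 2 ^ (y' : ℕ)) = y' := by
          rw [padicValNat.mul x'.ne_zero (by positivity), padicValNat.prime_pow,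
            padicValNat.eq_zero_of_not_dvd (by
              intro hd; exact (Nat.not_even_iff_odd.mpr ox') (even_iff_two_dvd.mpr hd)), zero_add]
        rw [← e1, h1, e2]
      have hy2 : y = y' := PNat.coe_injective hyy
      subst hy2
      have hx2 : (x : ℕ) = x' := Nat.eq_of_mul_eq_mul_right (by positivity) h1
      rw [PNat.coe_injective hx2]
    have hsub : g '' (O ℓ ×ˢ O ℓ) ⊆ O (ℓ + 2 * C) := by
      rintro _ ⟨⟨x, y⟩, ⟨hx, hy⟩, rfl⟩
      have h1 := hpow x y
      have h2 := hadd (x * 2 ^ (y : ℕ)) 1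
      have hx1 : (enc x).length ≤ ℓ := hx.1
      have hy1 : (enc y).length ≤ ℓ := hy.1
      refine ⟨?_, ?_⟩
      · change (enc (x * 2 ^ (y : ℕ) + 1)).length ≤ ℓ + 2 * C
        omega
      · change Odd ((x * 2 ^ (y : ℕ) + 1 : ℕ+) : ℕ)
        have : Even ((x : ℕ) * 2 ^ (y : ℕ)) := by
          apply Even.mul_left
          rw [Nat.even_pow]
          exact ⟨even_two, y.ne_zero⟩
        simpa using this.add_one
    calc (O ℓ).ncard ^ 2 = (O ℓ ×ˢ O ℓ).ncard := by rw [Set.ncard_prod, sq]
      _ = (g '' (O ℓ ×ˢ O ℓ)).ncard := hg.ncard_image.symm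
      _ ≤ (O (ℓ + 2 * C)).ncard := Set.ncard_le_ncard hsub (hOfin _)
  have hbase : 2 ≤ (O ℓ₀).ncard := by
    have hsub : ({1, 3} : Set ℕ+) ⊆ O ℓ₀ := by
      intro x hx
      rcases hx with rfl | rfl
      · exact ⟨le_max_left _ _, by decide⟩
      · exact ⟨le_max_right _ _, by decide⟩
    have := Set.ncard_le_ncard hsub (hOfin ℓ₀)
    rwa [Set.ncard_pair (by decide)] at this
  have hpow2 : ∀ n, 2 ^ (2 ^ n) ≤ (O (ℓ₀ + 2 * C * n)).ncard := by
    intro n
    induction n with
    | zero => simpa using hbase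
    | succ n ih =>
      calc 2 ^ (2 ^ (n + 1)) = (2 ^ (2 ^ n)) ^ 2 := by rw [← pow_mul, pow_succ]
        _ ≤ (O (ℓ₀ + 2 * C * n)).ncard ^ 2 := Nat.pow_le_pow_left ih 2
        _ ≤ (O (ℓ₀ + 2 * C * n + 2 * C)).ncard := step _ (by omega)
        _ = (O (ℓ₀ + 2 * C * (n + 1))).ncard := by ring_nf
  set a := Fintype.card A + 1 with ha
  have hbound : ∀ n, 2 ^ n ≤ a * (ℓ₀ + 2 * C * n) := by
    intro n
    have h1 : 2 ^ (2 ^ n) ≤ a ^ (ℓ₀ + 2 * C * n) := (hpow2 n).trans (hOcard _)
    have h2 : a ^ (ℓ₀ + 2 * C * n) ≤ (2 ^ a) ^ (ℓ₀ + 2 * C * n) :=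
      Nat.pow_le_pow_left (Nat.lt_two_pow_self).le _
    rw [← pow_mul] at h2
    exact (Nat.pow_le_pow_iff_right (by norm_num)).mp (h1.trans h2)
  -- `2 ^ n` grows faster than any linear function
  have hlin : ∀ K : ℕ, ∃ n : ℕ, K * (n + 1) < 2 ^ n := by
    intro K
    refine ⟨2 * K + 9, ?_⟩
    have h1 : K + 4 < 2 ^ (K + 4) := Nat.lt_two_pow_self
    have h2 : 2 ^ (2 * K + 9) = 2 * (2 ^ (K + 4) * 2 ^ (K + 4)) := by
      rw [← pow_add, ← pow_succ']; ring_nf
    rw [h2]
    have h3 : (K + 4 + 1) * (K + 4 + 1) ≤ 2 ^ (K + 4) * 2 ^ (K + 4) := Nat.mul_le_mul h1 h1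
    nlinarith
  obtain ⟨n, hn⟩ := hlin (a * (ℓ₀ + 2 * C))
  have h1 := hbound n
  have h2 : a * (ℓ₀ + 2 * C * n) ≤ a * (ℓ₀ + 2 * C) * (n + 1) := by
    calc a * (ℓ₀ + 2 * C * n) ≤ a * ((ℓ₀ + 2 * C) * (n + 1)) :=
          Nat.mul_le_mul_left a (by nlinarith [Nat.zero_le (ℓ₀ * n), Nat.zero_le C])
      _ = _ := by ring
  omega

/-- The structure `⟨ℕ_{>0}; +, x·2^y, ≤, 1⟩` has no automatic presentation. -/
theorem not_automatic :
    IsEmpty (AutomaticPresentation ℕ+ (fun x y => x + y) (fun x y => x * 2 ^ (y : ℕ))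
      (fun x y => x ≤ y) 1) := by
  constructor
  intro P
  haveI := P.fin
  obtain ⟨C₁, h₁⟩ := length_bound P.enc P.inj _ P.graph_f
  obtain ⟨C₂, h₂⟩ := length_bound P.enc P.inj _ P.graph_g
  refine no_growth P.enc P.inj (C₁ + C₂) (fun x y => ?_) (fun x y => ?_)
  · have := h₁ x y
    omega
  · have : (P.enc (x * 2 ^ (y : ℕ))).length ≤ max (P.enc x).length (P.enc y).length + C₂ := h₂ x y
    omega

end Pool.Agent.Helper162_aut
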